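import Pool.Agent.DBX.Cd

set_option autoImplicit false

/-! # MP_2c751f_ag, squad DBX: common library, the Čech differential `cd` -/

namespace Pool.Agent.DBX

section Basic

variable {V : Type*} [LinearOrder V] {M N : Type*} [AddCommGroup M] [AddCommGroup N]

/-- The sign `(-1)^{#{w ∈ σ, w < v}}`. -/
def sgn (v : V) (σ : Finset V) : ℤ := (-1) ^ (σ.filter (fun w => w < v)).card

theorem cd_sgn (x : Finset V → M) (σ : Finset V) :
    cd x σ = ∑ v ∈ σ, sgn v σ • x (σ.erase v) := rfl

@[simp] theorem sgn_mul_self (v : V) (σ : Finset V) : sgn v σ * sgn v σ = 1 := by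
  unfold sgn
  rw [← mul_pow]
  simp

theorem sgn_smul_sgn_smul (v : V) (σ : Finset V) (m : M) : sgn v σ • sgn v σ • m = m := by
  rw [smul_smul, sgn_mul_self, one_smul]

theorem sgn_eq_or (v : V) (σ : Finset V) : sgn v σ = 1 ∨ sgn v σ = -1 := by
  unfold sgn
  exact neg_one_pow_eq_or ℤ _

/-- Removing `w < v` changes the sign. -/
theorem sgn_erase_of_lt {v w : V} {σ : Finset V} (hw : w ∈ σ) (h : w < v) :
    sgn v (σ.erase w) = - sgn v σ := by
  unfold sgn
  have h1 : (σ.erase w).filter (fun u => u < v) = (σ.filter (fun u => u < v)).erase w := by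
    ext u; simp only [Finset.mem_filter, Finset.mem_erase]; tauto
  have h2 : w ∈ σ.filter (fun u => u < v) := Finset.mem_filter.2 ⟨hw, h⟩
  have h3 := Finset.card_erase_add_one h2
  rw [h1, ← h3, pow_succ]
  ring

/-- Removing `w` with `¬ w < v` does not change the sign. -/
theorem sgn_erase_of_not_lt {v w : V} {σ : Finset V} (h : ¬ w < v) :
    sgn v (σ.erase w) = sgn v σ := by
  unfold sgn
  have h1 : (σ.erase w).filter (fun u => u < v) = σ.filter (fun u => u < v) := by
    ext u
    simp only [Finset.mem_filter, Finset.mem_erase]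
    constructor
    · rintro ⟨⟨_, a⟩, b⟩; exact ⟨a, b⟩
    · rintro ⟨a, b⟩
      refine ⟨⟨?_, a⟩, b⟩
      rintro rfl; exact h b
  rw [h1]

theorem sgn_insert_of_lt {v w : V} {σ : Finset V} (hw : w ∉ σ) (h : w < v) :
    sgn v (insert w σ) = - sgn v σ := by
  have := sgn_erase_of_lt (v := v) (Finset.mem_insert_self w σ) h
  rw [Finset.erase_insert hw] at this
  rw [this, neg_neg]

theorem sgn_insert_of_not_lt {v w : V} {σ : Finset V} (h : ¬ w < v) :
    sgn v (insert w σ) = sgn v σ := by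
  by_cases hw : w ∈ σ
  · rw [Finset.insert_eq_of_mem hw]
  · have := sgn_erase_of_not_lt (v := v) (w := w) (σ := insert w σ) h
    rw [Finset.erase_insert hw] at this
    exact this.symm

theorem sgn_swap {v w : V} {σ : Finset V} (hv : v ∈ σ) (hw : w ∈ σ) (h : v ≠ w) :
    sgn v σ * sgn w (σ.erase v) = - (sgn w σ * sgn v (σ.erase w)) := by
  rcases lt_or_gt_of_ne h with h' | h'
  · rw [sgn_erase_of_lt hv h', sgn_erase_of_not_lt (not_lt.2 h'.le)]
    ring
  · rw [sgn_erase_of_not_lt (not_lt.2 h'.le), sgn_erase_of_lt hw h']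
    ring

/-- `cd` as a homomorphism -/
def cdHom (V : Type*) [LinearOrder V] (M : Type*) [AddCommGroup M] :
    (Finset V → M) →+ (Finset V → M) where
  toFun := cd
  map_zero' := cd_zero
  map_add' := cd_add

@[simp] theorem cdHom_apply (x : Finset V → M) : cdHom V M x = cd x := rfl

theorem cd_zsmul (a : ℤ) (x : Finset V → M) : cd (a • x) = a • cd x := map_zsmul (cdHom V M) _ _

theorem cd_mem {A : Finset V → AddSubgroup M} (hA : ∀ σ, ∀ v ∈ σ, A (σ.erase v) ≤ A σ)
    {x : Finset V → M} (hx : ∀ σ, x σ ∈ A σ) (σ : Finset V) : cd x σ ∈ A σ :=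
  (A σ).sum_mem (fun v hv => (A σ).zsmul_mem (hA σ v hv (hx _)) _)

@[simp] theorem sgn_empty (v : V) : sgn v ∅ = 1 := by simp [sgn]

@[simp] theorem sgn_singleton (v : V) : sgn v {v} = 1 := by
  have h : ({v} : Finset V).filter (fun w => w < v) = ∅ := by
    rw [Finset.filter_singleton, if_neg (lt_irrefl v)]
  simp [sgn, h]

/-! ### degrees -/

/-- the component of degree `j` -/
def cut (j : ℕ) (x : Finset V → M) (σ : Finset V) : M := if σ.card = j then x σ else 0

theorem cd_cut (j : ℕ) (x : Finset V → M) : cd (cut j x) = cut (j + 1) (cd x) := by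
  funext σ
  unfold cut
  split_ifs with h
  · rw [cd_sgn, cd_sgn]
    refine Finset.sum_congr rfl (fun v hv => ?_)
    rw [if_pos]
    rw [Finset.card_erase_of_mem hv, h]; rfl
  · rw [cd_sgn]
    refine Finset.sum_eq_zero (fun v hv => ?_)
    rw [if_neg, smul_zero]
    rw [Finset.card_erase_of_mem hv]
    have := Finset.card_pos.2 ⟨v, hv⟩
    omega

omit [LinearOrder V] in
theorem cut_mem {A : Finset V → AddSubgroup M} {x : Finset V → M} (hx : ∀ σ, x σ ∈ A σ) (j : ℕ)
    (σ : Finset V) : cut j x σ ∈ A σ := by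
  unfold cut; split_ifs
  · exact hx σ
  · exact (A σ).zero_mem

omit [LinearOrder V] in
theorem cut_of_supp {j : ℕ} {x : Finset V → M} (hx : ∀ σ, σ.card ≠ j → x σ = 0) : cut j x = x := by
  funext σ; unfold cut; split_ifs with h
  · rfl
  · exact (hx σ h).symm

omit [LinearOrder V] in
theorem cut_supp (j : ℕ) (x : Finset V → M) (σ : Finset V) (h : σ.card ≠ j) : cut j x σ = 0 :=
  if_neg h

omit [LinearOrder V] in
theorem cut_add (j : ℕ) (x y : Finset V → M) : cut j (x + y) = cut j x + cut j y := by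
  funext σ; simp only [cut, Pi.add_apply]; split_ifs <;> simp

/-- A coboundary of degree `j + 1` is the coboundary of a cochain of degree `j`. -/
theorem cd_cut_of_supp {j : ℕ} {x y : Finset V → M} (hy : cd y = x)
    (hx : ∀ σ, σ.card ≠ j + 1 → x σ = 0) : cd (cut j y) = x := by
  rw [cd_cut, hy, cut_of_supp hx]

/-- A cocycle is the sum of its components, all of which are cocycles. -/
theorem sum_cut [Fintype V] (x : Finset V → M) :
    ∑ j ∈ Finset.range (Fintype.card V + 1), cut j x = x := by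
  funext σ
  rw [Finset.sum_apply]
  rw [Finset.sum_eq_single σ.card]
  · simp [cut]
  · intro j _ hj
    exact cut_supp _ _ _ (Ne.symm hj)
  · intro h
    exfalso
    apply h
    rw [Finset.mem_range]
    have := Finset.card_le_univ σ
    omega

theorem cd_cut_eq_zero {x : Finset V → M} (hx : cd x = 0) (j : ℕ) : cd (cut j x) = 0 := by
  rw [cd_cut, hx]
  funext σ; simp [cut]

/-! ### the homotopy attached to an index -/

/-- `(hv v x) σ = ± x (σ ∪ v)` for `v ∉ σ` and `0` otherwise. -/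
def hv (v : V) (x : Finset V → M) (σ : Finset V) : M :=
  if v ∈ σ then 0 else sgn v σ • x (insert v σ)

theorem hv_add (v : V) (x y : Finset V → M) : hv v (x + y) = hv v x + hv v y := by
  funext σ; simp only [hv, Pi.add_apply]; split_ifs <;> simp

theorem hv_map (f : M →+ N) (v : V) (x : Finset V → M) :
    hv v (fun σ => f (x σ)) = fun σ => f (hv v x σ) := by
  funext σ; simp only [hv]; split_ifs <;> simp [map_zsmul]

theorem hv_smul {R : Type*} [Monoid R] [DistribMulAction R M] (v : V) (a : R)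
    (x : Finset V → M) : hv v (a • x) = a • hv v x := hv_map (DistribSMul.toAddMonoidHom M a) v x

/-- `cd ∘ hv + hv ∘ cd = id`. -/
theorem cd_hv (v : V) (x : Finset V → M) : cd (hv v x) + hv v (cd x) = x := by
  funext σ
  rw [Pi.add_apply]
  by_cases hvσ : v ∈ σ
  · have h1 : hv v (cd x) σ = 0 := if_pos hvσ
    rw [h1, add_zero, cd_sgn, Finset.sum_eq_single_of_mem v hvσ]
    · have h2 : hv v x (σ.erase v) = sgn v (σ.erase v) • x (insert v (σ.erase v)) :=
        if_neg (Finset.notMem_erase v σ)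
      rw [h2, Finset.insert_erase hvσ, sgn_erase_of_not_lt (lt_irrefl v), sgn_smul_sgn_smul]
    · intro w hw hwv
      have h2 : hv v x (σ.erase w) = 0 :=
        if_pos (Finset.mem_erase.2 ⟨Ne.symm hwv, hvσ⟩)
      rw [h2, smul_zero]
  · have h1 : hv v (cd x) σ = sgn v σ • cd x (insert v σ) := if_neg hvσ
    rw [h1, cd_sgn, cd_sgn, Finset.sum_insert hvσ, Finset.erase_insert hvσ, smul_add,
      sgn_insert_of_not_lt (lt_irrefl v), sgn_smul_sgn_smul]
    have h2 : ∑ w ∈ σ, sgn w σ • hv v x (σ.erase w) =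
        - (sgn v σ • ∑ w ∈ σ, sgn w (insert v σ) • x ((insert v σ).erase w)) := by
      rw [Finset.smul_sum, ← Finset.sum_neg_distrib]
      refine Finset.sum_congr rfl (fun w hw => ?_)
      have hwv : w ≠ v := fun h => hvσ (h ▸ hw)
      have h3 : hv v x (σ.erase w) = sgn v (σ.erase w) • x (insert v (σ.erase w)) :=
        if_neg (fun h => hvσ (Finset.mem_of_mem_erase h))
      rw [h3, Finset.erase_insert_of_ne (Ne.symm hwv), smul_smul, smul_smul, ← neg_smul]
      have h4 : sgn w σ * sgn v (σ.erase w) = -(sgn v σ * sgn w (insert v σ)) := by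
        rcases lt_or_gt_of_ne hwv with h' | h'
        · rw [sgn_erase_of_lt hw h', sgn_insert_of_not_lt (not_lt.2 h'.le)]
          ring
        · rw [sgn_erase_of_not_lt (not_lt.2 h'.le), sgn_insert_of_lt hvσ h']
          ring
      rw [h4]
    rw [h2]
    abel

/-- a cocycle is the coboundary of `hv v x` -/
theorem cd_hv_of_cocycle (v : V) {x : Finset V → M} (hx : cd x = 0) : cd (hv v x) = x := by
  have h := cd_hv v x
  rw [hx] at h
  have h0 : hv v (0 : Finset V → M) = 0 := by
    funext σ; simp [hv]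
  rwa [h0, add_zero] at h

theorem hv_mem {A : Finset V → AddSubgroup M} {v : V} (hA : ∀ σ, v ∉ σ → A (insert v σ) ≤ A σ)
    {x : Finset V → M} (hx : ∀ σ, x σ ∈ A σ) (σ : Finset V) : hv v x σ ∈ A σ := by
  unfold hv
  split_ifs with h
  · exact (A σ).zero_mem
  · exact (A σ).zsmul_mem (hA σ h (hx _)) _

/-- CONTRACTION: if `A (σ ∪ v) ≤ A σ` for one `v` and all `σ`, the augmented complex is exact. -/
theorem exact_of_contract {A : Finset V → AddSubgroup M} {v : V}
    (hA : ∀ σ, v ∉ σ → A (insert v σ) ≤ A σ) {x : Finset V → M} (hx : ∀ σ, x σ ∈ A σ)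
    (hc : cd x = 0) : ∃ y : Finset V → M, (∀ σ, y σ ∈ A σ) ∧ cd y = x :=
  ⟨hv v x, hv_mem hA hx, cd_hv_of_cocycle v hc⟩

/-- the function `m` at the empty set -/
def atE (m : M) (σ : Finset V) : M := if σ = ∅ then m else 0

/-- the function `m` at all sets with one element -/
def at1 (m : M) (σ : Finset V) : M := if σ.card = 1 then m else 0

theorem cd_atE (m : M) : cd (atE (V := V) m) = at1 m := by
  funext σ
  unfold at1
  split_ifs with h
  · obtain ⟨v, rfl⟩ := Finset.card_eq_one.1 h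
    rw [cd_singleton]; exact if_pos rfl
  · rw [cd_sgn]
    refine Finset.sum_eq_zero (fun v hv => ?_)
    have h1 : σ.erase v ≠ ∅ := by
      intro h0
      apply h
      have := Finset.card_erase_of_mem hv
      rw [h0, Finset.card_empty] at this
      have h2 := Finset.card_pos.2 ⟨v, hv⟩
      omega
    rw [show atE m (σ.erase v) = (0 : M) from if_neg h1, smul_zero]

theorem cd_at1 (m : M) : cd (at1 (V := V) m) = 0 := by
  rw [← cd_atE, cd_cd]

/-- the function `x` without its value at the empty set -/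
def ne0 (x : Finset V → M) (σ : Finset V) : M := if σ = ∅ then 0 else x σ

theorem ne0_add_atE (x : Finset V → M) : ne0 x + atE (x ∅) = x := by
  funext σ
  rw [Pi.add_apply]
  unfold ne0 atE
  split_ifs with h
  · rw [h, zero_add]
  · rw [add_zero]

@[simp] theorem ne0_empty (x : Finset V → M) : ne0 x ∅ = 0 := if_pos rfl

theorem ne0_of_ne (x : Finset V → M) {σ : Finset V} (h : σ.Nonempty) : ne0 x σ = x σ :=
  if_neg h.ne_empty

theorem cd_ne0 (x : Finset V → M) : cd (ne0 x) + at1 (x ∅) = cd x := by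
  rw [← cd_atE, ← cd_add, ne0_add_atE]

/-- CONTRACTION, non-augmented form: if `A (σ ∪ v) ≤ A σ` for one `v` and all nonempty `σ`, a
cocycle is a coboundary up to a global section. -/
theorem exact_of_contract' {A : Finset V → AddSubgroup M} {v : V}
    (hA : ∀ σ, σ.Nonempty → v ∉ σ → A (insert v σ) ≤ A σ) {x : Finset V → M} (hx0 : x ∅ = 0)
    (hx : ∀ σ, σ.Nonempty → x σ ∈ A σ) (hc : cd x = 0) :
    ∃ y : Finset V → M, y ∅ = 0 ∧ (∀ σ, σ.Nonempty → y σ ∈ A σ) ∧ x = cd y + at1 (x {v}) := by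
  refine ⟨ne0 (hv v x), ne0_empty _, ?_, ?_⟩
  · intro σ hσ
    rw [ne0_of_ne _ hσ]
    unfold hv
    split_ifs with h
    · exact (A σ).zero_mem
    · exact (A σ).zsmul_mem (hA σ hσ h (hx _ (Finset.insert_nonempty _ _))) _
  · have h1 : hv v x ∅ = x {v} := by
      unfold hv
      rw [if_neg (Finset.notMem_empty v)]
      simp [sgn]
    rw [← h1, cd_ne0, cd_hv_of_cocycle v hc]

/-- A cocycle which vanishes on all sets with at most one element is a coboundary. -/
theorem exact_of_contract_high {A : Finset V → AddSubgroup M} {v : V}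
    (hA : ∀ σ, σ.Nonempty → v ∉ σ → A (insert v σ) ≤ A σ) {x : Finset V → M} (hx0 : x ∅ = 0)
    (hx : ∀ σ, σ.Nonempty → x σ ∈ A σ) (hc : cd x = 0) (h1 : x {v} = 0) :
    ∃ y : Finset V → M, y ∅ = 0 ∧ (∀ σ, σ.Nonempty → y σ ∈ A σ) ∧ cd y = x := by
  obtain ⟨y, hy0, hy, h⟩ := exact_of_contract' hA hx0 hx hc
  refine ⟨y, hy0, hy, ?_⟩
  rw [h1] at h
  rw [h]
  have : at1 (V := V) (0 : M) = 0 := by funext σ; simp [at1]
  rw [this, add_zero]

end Basic

/-! ### partitions of unity -/

section Unity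

variable {V : Type*} [LinearOrder V] {M : Type*} [AddCommGroup M]
  {R : Type*} [CommRing R] [Module R M]

/-- A power of `f` kills the class of a cocycle if `f^N A (σ ∪ v) ≤ A σ`, elementwise. -/
theorem pow_smul_cob [Finite V] {A : Finset V → Submodule R M} {v : V} {f : R}
    (hloc : ∀ σ, v ∉ σ → ∀ m ∈ A (insert v σ), ∃ N : ℕ, f ^ N • m ∈ A σ)
    {x : Finset V → M} (hx : ∀ σ, x σ ∈ A σ) (hc : cd x = 0) :
    ∃ N : ℕ, ∀ N', N ≤ N' → ∃ y : Finset V → M, (∀ σ, y σ ∈ A σ) ∧ cd y = f ^ N' • x := by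
  classical
  have := Fintype.ofFinite V
  have h1 : ∀ σ : Finset V, ∃ N : ℕ, ∀ N', N ≤ N' → f ^ N' • hv v x σ ∈ A σ := by
    intro σ
    by_cases h : v ∈ σ
    · refine ⟨0, fun N' _ => ?_⟩
      rw [show hv v x σ = 0 from if_pos h, smul_zero]
      exact (A σ).zero_mem
    · obtain ⟨N, hN⟩ := hloc σ h _ (hx (insert v σ))
      refine ⟨N, fun N' hN' => ?_⟩
      rw [show hv v x σ = sgn v σ • x (insert v σ) from if_neg h, smul_comm]
      refine (A σ).smul_of_tower_mem (sgn v σ) ?_
      obtain ⟨c, rfl⟩ := Nat.exists_eq_add_of_le hN'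
      rw [add_comm, pow_add, mul_smul]
      exact (A σ).smul_mem _ hN
  choose N hN using h1
  refine ⟨Finset.univ.sup N, fun N' hN' => ⟨f ^ N' • hv v x, fun σ => ?_, ?_⟩⟩
  · exact hN σ N' (le_trans (Finset.le_sup (Finset.mem_univ σ)) hN')
  · rw [cd_smul, cd_hv_of_cocycle v hc]

/-- PARTITION OF UNITY: the augmented complex is exact if `A (σ ∪ v) = A σ [1 / f v]` and the `f v`
generate the unit ideal. -/
theorem exact_of_unity [Finite V] {A : Finset V → Submodule R M} (f : V → R)
    (hloc : ∀ v σ, v ∉ σ → ∀ m ∈ A (insert v σ), ∃ N : ℕ, f v ^ N • m ∈ A σ)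
    (hf : Ideal.span (Set.range f) = ⊤) {x : Finset V → M} (hx : ∀ σ, x σ ∈ A σ)
    (hc : cd x = 0) : ∃ y : Finset V → M, (∀ σ, y σ ∈ A σ) ∧ cd y = x := by
  classical
  have := Fintype.ofFinite V
  let J : Ideal R :=
    { carrier := {r | ∃ y : Finset V → M, (∀ σ, y σ ∈ A σ) ∧ cd y = r • x}
      zero_mem' := ⟨0, fun σ => (A σ).zero_mem, by rw [cd_zero, zero_smul]⟩
      add_mem' := by
        rintro a b ⟨y, hy, h⟩ ⟨z, hz, h'⟩
        exact ⟨y + z, fun σ => (A σ).add_mem (hy σ) (hz σ), by rw [cd_add, h, h', add_smul]⟩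
      smul_mem' := by
        rintro c a ⟨y, hy, h⟩
        exact ⟨c • y, fun σ => (A σ).smul_mem _ (hy σ), by
          rw [cd_smul, h, smul_eq_mul, mul_smul]⟩ }
  have h1 : ∀ v, ∃ N, f v ^ N ∈ J := by
    intro v
    obtain ⟨N, hN⟩ := pow_smul_cob (A := A) (v := v) (f := f v) (hloc v) hx hc
    exact ⟨N, hN N le_rfl⟩
  have h2 : (⊤ : Ideal R) ≤ J.radical := by
    rw [← hf, Ideal.span_le]
    rintro _ ⟨v, rfl⟩
    obtain ⟨N, hN⟩ := h1 v
    exact ⟨N, hN⟩
  have h3 : (1 : R) ∈ J := by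
    have : J.radical = ⊤ := top_le_iff.1 h2
    rw [Ideal.radical_eq_top] at this
    rw [this]; trivial
  obtain ⟨y, hy, h⟩ := h3
  exact ⟨y, hy, by rw [h, one_smul]⟩

end Unity

end Pool.Agent.DBX
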