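import Pool.Agent.DBX.Lib.Cech

set_option autoImplicit false

/-! # MP_2c751f_ag, squad DBX: common library, total differentials -/

namespace Pool.Agent.DBX

/-! ### exactness from the exactness of the leading terms -/

/-- If `D` is a differential on functions on an index set with a rank function, which is given on
leading terms by local differentials `δ ξ`, and all local complexes are exact, `D` is exact. -/
theorem lead_exact {Ξ : Type*} (r : Ξ → ℕ) (R : ℕ) (hR : ∀ ξ, r ξ < R) {N : Type*}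
    [AddCommGroup N] (K : Ξ → AddSubgroup N) (D : (Ξ → N) →+ (Ξ → N)) (δ : Ξ → N → N)
    (hlead : ∀ x ξ, (∀ ξ', r ξ' < r ξ → x ξ' = 0) → D x ξ = δ ξ (x ξ))
    (hK : ∀ x, (∀ ξ, x ξ ∈ K ξ) → ∀ ξ, D x ξ ∈ K ξ) (hDD : ∀ x, D (D x) = 0)
    (hex : ∀ ξ, ∀ n ∈ K ξ, δ ξ n = 0 → ∃ m ∈ K ξ, δ ξ m = n)
    (x : Ξ → N) (hx : ∀ ξ, x ξ ∈ K ξ) (h0 : D x = 0) :
    ∃ y, (∀ ξ, y ξ ∈ K ξ) ∧ D y = x := by
  classical
  have key : ∀ j : ℕ, ∃ y, (∀ ξ, y ξ ∈ K ξ) ∧ ∀ ξ, r ξ < j → (x - D y) ξ = 0 := by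
    intro j
    induction j with
    | zero => exact ⟨0, fun ξ => (K ξ).zero_mem, fun ξ h => absurd h (Nat.not_lt_zero _)⟩
    | succ j ih =>
      obtain ⟨y, hy, hv⟩ := ih
      set x' := x - D y with hx'
      have hx'K : ∀ ξ, x' ξ ∈ K ξ := fun ξ => (K ξ).sub_mem (hx ξ) (hK y hy ξ)
      have hx'0 : D x' = 0 := by rw [hx', map_sub, h0, hDD, sub_zero]
      have h1 : ∀ ξ, ∃ m ∈ K ξ, r ξ = j → δ ξ m = x' ξ := by
        intro ξ
        by_cases h : r ξ = j
        · have h2 : δ ξ (x' ξ) = 0 := by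
            rw [← hlead x' ξ (fun ξ' h' => hv ξ' (h ▸ h')), hx'0]; rfl
          obtain ⟨m, hm, hm'⟩ := hex ξ _ (hx'K ξ) h2
          exact ⟨m, hm, fun _ => hm'⟩
        · exact ⟨0, (K ξ).zero_mem, fun h' => absurd h' h⟩
      choose m hm hm' using h1
      let y' : Ξ → N := fun ξ => if r ξ = j then m ξ else 0
      have hy' : ∀ ξ, y' ξ ∈ K ξ := by
        intro ξ
        change (if r ξ = j then m ξ else 0) ∈ K ξ
        split_ifs
        · exact hm ξ
        · exact (K ξ).zero_mem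
      refine ⟨y + y', fun ξ => (K ξ).add_mem (hy ξ) (hy' ξ), fun ξ hξ => ?_⟩
      have h3 : x - D (y + y') = x' - D y' := by rw [map_add, hx']; abel
      rw [h3, Pi.sub_apply]
      have h4 : D y' ξ = δ ξ (y' ξ) := by
        refine hlead y' ξ (fun ξ' h' => ?_)
        exact if_neg (by omega)
      rw [h4]
      rcases Nat.lt_succ_iff_lt_or_eq.1 hξ with h | h
      · have h5 : y' ξ = 0 := if_neg (by omega)
        have h6 : δ ξ 0 = 0 := by
          have := hlead 0 ξ (fun _ _ => rfl)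
          rw [map_zero] at this
          exact this.symm
        rw [hv ξ h, h5, h6, sub_zero]
      · have h5 : y' ξ = m ξ := if_pos h
        rw [h5, hm' ξ h, sub_self]
  obtain ⟨y, hy, hv⟩ := key R
  refine ⟨y, hy, ?_⟩
  funext ξ
  have := hv ξ (hR ξ)
  rw [Pi.sub_apply, sub_eq_zero] at this
  exact this.symm

section Td

variable {V U : Type*} [LinearOrder V] [LinearOrder U] {M N : Type*} [AddCommGroup M]
  [AddCommGroup N]

/-- total differential of functions with values in a group with a differential -/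
def td (d : N → N) (x : Finset V → N) (σ : Finset V) : N :=
  cd x σ + ((-1 : ℤ) ^ σ.card) • d (x σ)

theorem cd_fun (x : Finset V → U → M) (σ : Finset V) (u : U) :
    cd x σ u = cd (fun s => x s u) σ := by
  rw [cd_sgn, cd_sgn, Finset.sum_apply]
  rfl

theorem cd_fun' {T : Type*} (x : Finset V → T → M) (σ : Finset V) (u : T) :
    cd x σ u = cd (fun s => x s u) σ := by
  rw [cd_sgn, cd_sgn, Finset.sum_apply]
  rfl

theorem dd_eq_td (x : Finset V → Finset U → M) : dd x = td cd x := by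
  funext σ τ
  unfold dd td
  rw [Pi.add_apply, cd_fun', Pi.smul_apply]

/-- `td d` as a homomorphism -/
def tdHom (V : Type*) [LinearOrder V] (d : N →+ N) : (Finset V → N) →+ (Finset V → N) where
  toFun := td d
  map_zero' := by
    funext σ
    unfold td
    rw [cd_zero]
    simp
  map_add' := by
    intro x y
    funext σ
    unfold td
    rw [cd_add]
    simp only [Pi.add_apply, map_add, smul_add]
    abel

@[simp] theorem tdHom_apply (d : N →+ N) (x : Finset V → N) : tdHom V d x = td d x := rfl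

theorem td_add (d : N →+ N) (x y : Finset V → N) : td d (x + y) = td d x + td d y :=
  map_add (tdHom V d) x y

theorem td_sub (d : N →+ N) (x y : Finset V → N) : td d (x - y) = td d x - td d y :=
  map_sub (tdHom V d) x y

theorem td_zero (d : N →+ N) : td d (0 : Finset V → N) = 0 := map_zero (tdHom V d)

theorem td_neg (d : N →+ N) (x : Finset V → N) : td d (-x) = - td d x :=
  map_neg (tdHom V d) x

/-- `cd` of the signed values -/
theorem cd_sign_card (x : Finset V → N) (σ : Finset V) :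
    cd (fun s => ((-1 : ℤ) ^ s.card) • x s) σ = - (((-1 : ℤ) ^ σ.card) • cd x σ) := by
  rw [cd_sgn, cd_sgn, Finset.smul_sum, ← Finset.sum_neg_distrib]
  refine Finset.sum_congr rfl (fun v hv => ?_)
  have h := Finset.card_erase_add_one hv
  rw [← h, pow_succ, smul_smul, smul_smul, ← neg_smul]
  congr 1
  ring

theorem td_td (d : N →+ N) (hd : ∀ n, d (d n) = 0) (x : Finset V → N) :
    td d (td d x) = 0 := by
  funext σ
  have h1 : td d x = cd x + fun s => ((-1 : ℤ) ^ s.card) • d (x s) := rfl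
  change cd (td d x) σ + ((-1 : ℤ) ^ σ.card) • d (td d x σ) = 0
  rw [h1, cd_add, cd_cd, zero_add, cd_sign_card, Pi.add_apply, map_add, map_zsmul, hd, smul_zero,
    add_zero]
  have h2 : cd (fun s => d (x s)) σ = d (cd x σ) := congrFun (cd_map d x) σ
  rw [h2]
  exact neg_add_cancel _

/-- the contraction attached to an index contracts the total complex -/
theorem td_hv (d : N →+ N) (v : V) (x : Finset V → N) :
    td d (hv v x) + hv v (td d x) = x := by
  have h0 : td d x = cd x + fun s => ((-1 : ℤ) ^ s.card) • d (x s) := rfl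
  have h1 : td d (hv v x) = cd (hv v x) + fun s => ((-1 : ℤ) ^ s.card) • d (hv v x s) := rfl
  rw [h0, hv_add, h1]
  have h2 : (fun s => ((-1 : ℤ) ^ s.card) • d (hv v x s)) +
      hv v (fun s => ((-1 : ℤ) ^ s.card) • d (x s)) = 0 := by
    funext σ
    rw [Pi.add_apply]
    by_cases h : v ∈ σ
    · simp [hv, h]
    · simp only [hv, if_neg h, Pi.zero_apply]
      rw [Finset.card_insert_of_notMem h, pow_succ, map_zsmul]
      rw [smul_smul, smul_smul, ← add_smul]
      have : (-1 : ℤ) ^ σ.card * sgn v σ + sgn v σ * ((-1) ^ σ.card * -1) = 0 := by ring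
      rw [this, zero_smul]
  calc cd (hv v x) + (fun s => ((-1 : ℤ) ^ s.card) • d (hv v x s)) +
      (hv v (cd x) + hv v (fun s => ((-1 : ℤ) ^ s.card) • d (x s)))
      = (cd (hv v x) + hv v (cd x)) + ((fun s => ((-1 : ℤ) ^ s.card) • d (hv v x s)) +
      hv v (fun s => ((-1 : ℤ) ^ s.card) • d (x s))) := by abel
    _ = x := by rw [cd_hv, h2, add_zero]

theorem td_mem {d : N → N} {B : Finset V → AddSubgroup N} (hB : ∀ σ, ∀ v ∈ σ, B (σ.erase v) ≤ B σ)
    (hd : ∀ σ, ∀ n ∈ B σ, d n ∈ B σ) {x : Finset V → N} (hx : ∀ σ, x σ ∈ B σ) (σ : Finset V) :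
    td d x σ ∈ B σ :=
  (B σ).add_mem (cd_mem hB hx σ) ((B σ).zsmul_mem (hd σ _ (hx σ)) _)

/-- COLUMNS: exactness of the total complex from the exactness of the columns. -/
theorem td_exact_col [Finite V] (d : N →+ N) (hdd : ∀ n, d (d n) = 0)
    {B : Finset V → AddSubgroup N} (hB : ∀ σ, ∀ v ∈ σ, B (σ.erase v) ≤ B σ)
    (hd : ∀ σ, ∀ n ∈ B σ, d n ∈ B σ) (hex : ∀ σ, ∀ n ∈ B σ, d n = 0 → ∃ m ∈ B σ, d m = n)
    {x : Finset V → N} (hx : ∀ σ, x σ ∈ B σ) (h0 : td d x = 0) :
    ∃ y : Finset V → N, (∀ σ, y σ ∈ B σ) ∧ td d y = x := by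
  classical
  have := Fintype.ofFinite V
  refine lead_exact (fun σ : Finset V => σ.card) (Fintype.card V + 1)
    (fun σ => Nat.lt_succ_of_le (Finset.card_le_univ σ)) B (tdHom V d)
    (fun σ n => ((-1 : ℤ) ^ σ.card) • d n) ?_ ?_ ?_ ?_ x hx h0
  · intro y σ h
    rw [tdHom_apply]
    change cd y σ + _ = _
    have h1 : cd y σ = 0 := by
      rw [cd_sgn]
      refine Finset.sum_eq_zero (fun v hv => ?_)
      rw [h (σ.erase v) (Finset.card_erase_lt_of_mem hv), smul_zero]
    rw [h1, zero_add]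
  · intro y hy σ
    exact td_mem hB hd hy σ
  · intro y
    exact td_td d hdd y
  · intro σ n hn h
    have h1 : d n = 0 := by
      rcases neg_one_pow_eq_or ℤ σ.card with h2 | h2
      · rwa [h2, one_smul] at h
      · rw [h2, neg_smul, one_smul, neg_eq_zero] at h; exact h
    obtain ⟨m, hm, hm'⟩ := hex σ n hn h1
    refine ⟨((-1 : ℤ) ^ σ.card) • m, (B σ).zsmul_mem hm _, ?_⟩
    rw [map_zsmul, smul_smul, hm', ← mul_pow]
    simp

end Td

/-! ### double complexes -/

section Dd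

variable {V U : Type*} [LinearOrder V] [LinearOrder U] {M N : Type*} [AddCommGroup M]
  [AddCommGroup N]

/-- `dd` as a homomorphism -/
def ddHom (V U : Type*) [LinearOrder V] [LinearOrder U] (M : Type*) [AddCommGroup M] :
    (Finset V → Finset U → M) →+ (Finset V → Finset U → M) where
  toFun := dd
  map_zero' := by rw [dd_eq_td]; exact td_zero (cdHom U M)
  map_add' := fun x y => by
    rw [dd_eq_td, dd_eq_td, dd_eq_td]; exact td_add (cdHom U M) x y

@[simp] theorem ddHom_apply (x : Finset V → Finset U → M) : ddHom V U M x = dd x := rfl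

theorem dd_zero : dd (0 : Finset V → Finset U → M) = 0 := map_zero (ddHom V U M)

theorem dd_add (x y : Finset V → Finset U → M) : dd (x + y) = dd x + dd y :=
  map_add (ddHom V U M) x y

theorem dd_sub (x y : Finset V → Finset U → M) : dd (x - y) = dd x - dd y :=
  map_sub (ddHom V U M) x y

theorem dd_neg (x : Finset V → Finset U → M) : dd (-x) = - dd x := map_neg (ddHom V U M) x

theorem dd_sum {ι : Type*} (s : Finset ι) (x : ι → Finset V → Finset U → M) :
    dd (∑ i ∈ s, x i) = ∑ i ∈ s, dd (x i) := map_sum (ddHom V U M) _ _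

theorem dd_dd (x : Finset V → Finset U → M) : dd (dd x) = 0 := by
  rw [dd_eq_td, dd_eq_td]
  exact td_td (cdHom U M) (fun n => cd_cd n) x

theorem dd_map (f : M →+ N) (x : Finset V → Finset U → M) :
    dd (fun σ τ => f (x σ τ)) = fun σ τ => f (dd x σ τ) := by
  funext σ τ
  change cd (fun s => f (x s τ)) σ + ((-1 : ℤ) ^ σ.card) • cd (fun t => f (x σ t)) τ =
    f (cd (fun s => x s τ) σ + ((-1 : ℤ) ^ σ.card) • cd (x σ) τ)
  rw [map_add, map_zsmul, congrFun (cd_map f (fun s => x s τ)) σ, congrFun (cd_map f (x σ)) τ]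

/-- the component of total degree `j` -/
def cut2 (j : ℕ) (x : Finset V → Finset U → M) (σ : Finset V) (τ : Finset U) : M :=
  if σ.card + τ.card = j then x σ τ else 0

theorem dd_cut2 (j : ℕ) (x : Finset V → Finset U → M) :
    dd (cut2 j x) = cut2 (j + 1) (dd x) := by
  funext σ τ
  have h1 : (cd fun s => cut2 j x s τ) σ =
      if σ.card + τ.card = j + 1 then cd (fun s => x s τ) σ else 0 := by
    rw [cd_sgn]
    split_ifs with h
    · rw [cd_sgn]
      refine Finset.sum_congr rfl (fun v hv => ?_)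
      have := Finset.card_erase_add_one hv
      rw [show cut2 j x (σ.erase v) τ = x (σ.erase v) τ from if_pos (by omega)]
    · refine Finset.sum_eq_zero (fun v hv => ?_)
      have := Finset.card_erase_add_one hv
      rw [show cut2 j x (σ.erase v) τ = 0 from if_neg (by omega), smul_zero]
  have h2 : cd (cut2 j x σ) τ = if σ.card + τ.card = j + 1 then cd (x σ) τ else 0 := by
    rw [cd_sgn]
    split_ifs with h
    · rw [cd_sgn]
      refine Finset.sum_congr rfl (fun v hv => ?_)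
      have := Finset.card_erase_add_one hv
      rw [show cut2 j x σ (τ.erase v) = x σ (τ.erase v) from if_pos (by omega)]
    · refine Finset.sum_eq_zero (fun v hv => ?_)
      have := Finset.card_erase_add_one hv
      rw [show cut2 j x σ (τ.erase v) = 0 from if_neg (by omega), smul_zero]
  change (cd fun s => cut2 j x s τ) σ + ((-1 : ℤ) ^ σ.card) • cd (cut2 j x σ) τ =
    if σ.card + τ.card = j + 1 then dd x σ τ else 0
  rw [h1, h2]
  split_ifs with h
  · rfl
  · rw [smul_zero, add_zero]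

theorem cut2_of_supp {j : ℕ} {x : Finset V → Finset U → M}
    (hx : ∀ σ τ, σ.card + τ.card ≠ j → x σ τ = 0) : cut2 j x = x := by
  funext σ τ
  unfold cut2
  split_ifs with h
  · rfl
  · exact (hx σ τ h).symm

/-- the values of `dd` lie in a monotone family of subgroups -/
theorem dd_mem {G : Finset V → Finset U → AddSubgroup M}
    (h1 : ∀ σ τ, ∀ v ∈ σ, G (σ.erase v) τ ≤ G σ τ) (h2 : ∀ σ τ, ∀ v ∈ τ, G σ (τ.erase v) ≤ G σ τ)
    {x : Finset V → Finset U → M} (hx : ∀ σ τ, x σ τ ∈ G σ τ) (σ : Finset V) (τ : Finset U) :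
    dd x σ τ ∈ G σ τ :=
  (G σ τ).add_mem (cd_mem (A := fun s => G s τ) (fun s v hv => h1 s τ v hv) (fun s => hx s τ) σ)
    ((G σ τ).zsmul_mem (cd_mem (A := fun t => G σ t) (fun t v hv => h2 σ t v hv) (hx σ) τ) _)

/-- COL: exact columns imply that the double complex is exact (all indices). -/
theorem dd_exact_col [Finite V] {G : Finset V → Finset U → AddSubgroup M}
    (h1 : ∀ σ τ, ∀ v ∈ σ, G (σ.erase v) τ ≤ G σ τ) (h2 : ∀ σ τ, ∀ v ∈ τ, G σ (τ.erase v) ≤ G σ τ)
    (hex : ∀ σ, ∀ x : Finset U → M, (∀ τ, x τ ∈ G σ τ) → cd x = 0 →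
      ∃ y : Finset U → M, (∀ τ, y τ ∈ G σ τ) ∧ cd y = x)
    {z : Finset V → Finset U → M} (hz : ∀ σ τ, z σ τ ∈ G σ τ) (h0 : dd z = 0) :
    ∃ y : Finset V → Finset U → M, (∀ σ τ, y σ τ ∈ G σ τ) ∧ dd y = z := by
  rw [dd_eq_td] at h0
  suffices hh : ∃ y : Finset V → Finset U → M,
      (∀ σ, y σ ∈ AddSubgroup.pi Set.univ (fun τ => G σ τ)) ∧ td (cdHom U M) y = z by
    obtain ⟨y, hy, h⟩ := hh
    refine ⟨y, fun σ τ => (AddSubgroup.mem_pi _).1 (hy σ) τ trivial, ?_⟩
    rw [dd_eq_td]; exact h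
  refine td_exact_col (cdHom U M) (fun n => cd_cd n)
    (B := fun σ => AddSubgroup.pi Set.univ (fun τ => G σ τ)) ?_ ?_ ?_ (x := z) ?_ h0
  · intro σ v hv f hf
    rw [AddSubgroup.mem_pi] at hf ⊢
    exact fun τ _ => h1 σ τ v hv (hf τ trivial)
  · intro σ f hf
    rw [AddSubgroup.mem_pi] at hf ⊢
    exact fun τ _ => cd_mem (A := fun t => G σ t) (fun t v hv => h2 σ t v hv)
      (fun t => hf t trivial) τ
  · intro σ f hf h
    rw [AddSubgroup.mem_pi] at hf
    obtain ⟨y, hy, hy'⟩ := hex σ f (fun τ => hf τ trivial) h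
    exact ⟨y, (AddSubgroup.mem_pi _).2 (fun τ _ => hy τ), hy'⟩
  · intro σ
    rw [AddSubgroup.mem_pi]
    exact fun τ _ => hz σ τ

/-- COL, with vanishing at `σ = ∅`. -/
theorem dd_exact_col' [Finite V] {G : Finset V → Finset U → AddSubgroup M}
    (h1 : ∀ σ τ, σ.Nonempty → ∀ σ', σ ⊆ σ' → G σ τ ≤ G σ' τ)
    (h2 : ∀ σ, σ.Nonempty → ∀ τ τ', τ ⊆ τ' → G σ τ ≤ G σ τ')
    (hex : ∀ σ, σ.Nonempty → ∀ x : Finset U → M, (∀ τ, x τ ∈ G σ τ) → cd x = 0 →
      ∃ y : Finset U → M, (∀ τ, y τ ∈ G σ τ) ∧ cd y = x)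
    {z : Finset V → Finset U → M} (hz0 : ∀ τ, z ∅ τ = 0)
    (hz : ∀ σ τ, σ.Nonempty → z σ τ ∈ G σ τ) (h0 : dd z = 0) :
    ∃ y : Finset V → Finset U → M, (∀ τ, y ∅ τ = 0) ∧ (∀ σ τ, σ.Nonempty → y σ τ ∈ G σ τ) ∧
      dd y = z := by
  classical
  let G' : Finset V → Finset U → AddSubgroup M := fun σ τ => if σ = ∅ then ⊥ else G σ τ
  have e0 : ∀ τ, G' ∅ τ = ⊥ := fun τ => if_pos rfl
  have e1 : ∀ σ τ, σ.Nonempty → G' σ τ = G σ τ := fun σ τ h => if_neg h.ne_empty
  suffices hh : ∃ y : Finset V → Finset U → M, (∀ σ τ, y σ τ ∈ G' σ τ) ∧ dd y = z by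
    obtain ⟨y, hy, h⟩ := hh
    refine ⟨y, fun τ => ?_, fun σ τ hσ => ?_, h⟩
    · have := hy ∅ τ
      rw [e0] at this
      exact (AddSubgroup.mem_bot).1 this
    · rw [← e1 σ τ hσ]; exact hy σ τ
  refine dd_exact_col (G := G') ?_ ?_ ?_ (z := z) ?_ h0
  · intro σ τ v hv
    by_cases h : σ.erase v = ∅
    · rw [h, e0]; exact bot_le
    · rw [e1 _ _ (Finset.nonempty_iff_ne_empty.2 h), e1 _ _ ⟨v, hv⟩]
      exact h1 _ _ (Finset.nonempty_iff_ne_empty.2 h) _ (Finset.erase_subset _ _)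
  · intro σ τ v hv
    by_cases h : σ = ∅
    · subst h; rw [e0]; exact bot_le
    · rw [e1 _ _ (Finset.nonempty_iff_ne_empty.2 h), e1 _ _ (Finset.nonempty_iff_ne_empty.2 h)]
      exact h2 _ (Finset.nonempty_iff_ne_empty.2 h) _ _ (Finset.erase_subset _ _)
  · intro σ x hx hc
    by_cases h : σ = ∅
    · subst h
      refine ⟨0, fun τ => (G' ∅ τ).zero_mem, ?_⟩
      rw [cd_zero]
      funext τ
      have := hx τ
      rw [e0] at this
      exact ((AddSubgroup.mem_bot).1 this).symm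
    · have h' := Finset.nonempty_iff_ne_empty.2 h
      obtain ⟨y, hy, hy'⟩ := hex σ h' x (fun τ => by rw [← e1 σ τ h']; exact hx τ) hc
      exact ⟨y, fun τ => by rw [e1 σ τ h']; exact hy τ, hy'⟩
  · intro σ τ
    by_cases h : σ = ∅
    · subst h; rw [hz0]; exact (G' ∅ τ).zero_mem
    · have h' := Finset.nonempty_iff_ne_empty.2 h
      rw [e1 σ τ h']; exact hz σ τ h'

/-- ROW: exact rows imply that the double complex is exact (all indices). -/
theorem dd_exact_row [Finite U] {G : Finset V → Finset U → AddSubgroup M}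
    (h1 : ∀ σ τ, ∀ v ∈ σ, G (σ.erase v) τ ≤ G σ τ) (h2 : ∀ σ τ, ∀ v ∈ τ, G σ (τ.erase v) ≤ G σ τ)
    (hex : ∀ τ, ∀ x : Finset V → M, (∀ σ, x σ ∈ G σ τ) → cd x = 0 →
      ∃ y : Finset V → M, (∀ σ, y σ ∈ G σ τ) ∧ cd y = x)
    {z : Finset V → Finset U → M} (hz : ∀ σ τ, z σ τ ∈ G σ τ) (h0 : dd z = 0) :
    ∃ y : Finset V → Finset U → M, (∀ σ τ, y σ τ ∈ G σ τ) ∧ dd y = z := by
  classical
  have := Fintype.ofFinite U
  let D : (Finset U → Finset V → M) →+ (Finset U → Finset V → M) :=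
    { toFun := fun x τ σ => dd (fun s t => x t s) σ τ
      map_zero' := by
        funext τ σ
        change dd (0 : Finset V → Finset U → M) σ τ = 0
        rw [dd_zero]; rfl
      map_add' := fun x y => by
        funext τ σ
        change dd ((fun s t => x t s) + (fun s t => y t s)) σ τ = _
        rw [dd_add]; rfl }
  suffices hh : ∃ y : Finset U → Finset V → M,
      (∀ τ, y τ ∈ AddSubgroup.pi Set.univ (fun σ => G σ τ)) ∧ D y = fun τ σ => z σ τ by
    obtain ⟨y, hy, h⟩ := hh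
    refine ⟨fun σ τ => y τ σ, fun σ τ => (AddSubgroup.mem_pi _).1 (hy τ) σ trivial, ?_⟩
    funext σ τ
    exact congrFun (congrFun h τ) σ
  refine lead_exact (fun τ : Finset U => τ.card) (Fintype.card U + 1)
    (fun τ => Nat.lt_succ_of_le (Finset.card_le_univ τ))
    (fun τ => AddSubgroup.pi Set.univ (fun σ => G σ τ)) D (fun _ n => cd n) ?_ ?_ ?_ ?_
    (fun τ σ => z σ τ) ?_ ?_
  · intro x τ hx
    funext σ
    change cd (fun s => x τ s) σ + ((-1 : ℤ) ^ σ.card) • cd (fun t => x t σ) τ = cd (x τ) σ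
    have h3 : cd (fun t => x t σ) τ = 0 := by
      rw [cd_sgn]
      refine Finset.sum_eq_zero (fun v hv => ?_)
      rw [hx (τ.erase v) (Finset.card_erase_lt_of_mem hv)]
      simp
    rw [h3, smul_zero, add_zero]
  · intro x hx τ
    rw [AddSubgroup.mem_pi]
    intro σ _
    exact dd_mem h1 h2 (x := fun s t => x t s)
      (fun s t => (AddSubgroup.mem_pi _).1 (hx t) s trivial) σ τ
  · intro x
    funext τ σ
    exact congrFun (congrFun (dd_dd (fun s t => x t s)) σ) τ
  · intro τ x hx hc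
    rw [AddSubgroup.mem_pi] at hx
    obtain ⟨y, hy, hy'⟩ := hex τ x (fun σ => hx σ trivial) hc
    exact ⟨y, (AddSubgroup.mem_pi _).2 (fun σ _ => hy σ), hy'⟩
  · intro τ
    rw [AddSubgroup.mem_pi]
    exact fun σ _ => hz σ τ
  · funext τ σ
    exact congrFun (congrFun h0 σ) τ

end Dd

end Pool.Agent.DBX
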